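import Pool.Agent.SSQ.FIN2

/-!
# MP_46b841_nt: Stark's conjecture up to roots of unity and one sparse sequence of class characters

For all functions `F, g : ℕ → ℕ`, `g → ∞`, there is one sequence of cyclic extensions `L_j/K_j` of
number fields, `j = 0, 1, 2, ...`, such that

* `[K_j : ℚ] ≥ F(j)`, `K_j` is totally complex, `L_j/K_j` is unramified, and `𝓞 L_j` has a basis
  over `𝓞 K_j` which consists of the conjugates of one element (a normal integral basis);
* for every finite set `T` of prime numbers the primes of `K_j` above `T` split completely in `L_j`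
  for all but finitely many `j`;
* for every number field `E` and for all but finitely many `j` the field `L_j` lies in a field `N`
  which contains a copy of `E`, is Galois over `ℚ` and abelian over `K_j`;
* for every set `J` of natural numbers which contains the interval `[a, a + g(a)]` for infinitely
  many `a` (for example `J = {j : j ≥ j₀}`, but `J` may be arbitrarily thin), all `n ≥ 1` and all
  `σ ∈ Aut(ℂ)`: Stark's conjecture up to roots of unity for `σ` and for all characters with values
  in `ℚ(ζ_n)` of all finite Galois extensions of number fields holds if and only if it holds for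
  `σ`, with `S = S_∞`, for the faithful linear characters `ψ`, `ψ^n = 1`, of `Gal(L_j/K_j)`,
  `j ∈ J`, and for the faithful, totally odd linear characters with values in `ℚ(ζ_n)` of
  `Gal(L/K)`, `K` totally real (Siegel's theorem).
-/

open Filter

theorem Pool.Agent.Results.MP_46b841_nt.SparseSequence.result
    (F g : ℕ → ℕ) (hg : Tendsto g atTop atTop) :
    ∃ (K L : ℕ → Type) (_ : ∀ j, Field (K j)) (_ : ∀ j, NumberField (K j)) (_ : ∀ j, Field (L j))
      (_ : ∀ j, NumberField (L j)) (_ : ∀ j, Algebra (K j) (L j))
      (_ : ∀ j, IsGalois (K j) (L j)),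
      (∀ j, StarkW.GoodPair ∅ (K j) (L j) ∧ F j ≤ Module.finrank ℚ (K j)) ∧
      (∀ T : Finset ℕ, ∀ᶠ j in atTop, StarkW.GoodPair T (K j) (L j)) ∧
      (∀ (E : Type) [Field E] [NumberField E], ∀ᶠ j in atTop, StarkW.InAbelian E (K j) (L j)) ∧
      ∀ J : Set ℕ, (∃ᶠ a in atTop, ∀ j, a ≤ j → j ≤ a + g a → j ∈ J) →
        ∀ (n : ℕ) (σ : ℂ ≃+* ℂ), 0 < n →
          (StarkV.StarkCyclotomic n σ ↔
            (∀ j ∈ J, StarkW.StarkFaithful n σ (K j) (L j)) ∧ StarkV.ClassB n σ) := by
  obtain ⟨Y, h1, h2, h3, h4, -⟩ := StarkC.SSQM.fin2 F g hg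
  exact ⟨fun j => (Y j).K, fun j => (Y j).L, fun j => (Y j).fK, fun j => (Y j).nK,
    fun j => (Y j).fL, fun j => (Y j).nL, fun j => (Y j).alg, fun j => (Y j).gal, h1, h2, h3,
    fun J hJ n σ hn => h4 J n σ hJ hn⟩
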